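import Pool.Agent.Q33.Cat2.Basic

/-! Sun's congruences for the second-order Catalan numbers. -/

namespace Pool.Agent.Results.MP_77f5f4_nt.SecondOrderCatalan

open Finset Q33.Harm Pool.Agent.Q33.Cat2

/-- the Catalan number `C_k = C(2k,k)/(k+1)` (exact division of natural numbers) -/
def cat (k : ℕ) : ℕ := (2 * k).choose k / (k + 1)

/-- `C_k^{(2)} = C(3k,k)/(2k+1)` (exact division of natural numbers) -/
def cat2 (k : ℕ) : ℕ := (3 * k).choose k / (2 * k + 1)

/-- `\bar C_k^{(2)} = 2 C(3k,k)/(k+1)` (exact division of natural numbers) -/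
def catbar (k : ℕ) : ℕ := 2 * (3 * k).choose k / (k + 1)

/-- `∑_{k<p} C_k C_k^{(2)}/27^k` -/
def S (p : ℕ) : ℚ := ∑ k ∈ range p, ((cat k * cat2 k : ℕ) : ℚ) / 27 ^ k

/-- `∑_{k<p} C_k \bar C_k^{(2)}/27^k` -/
def Sbar (p : ℕ) : ℚ := ∑ k ∈ range p, ((cat k * catbar k : ℕ) : ℚ) / 27 ^ k

theorem cat_mul (k : ℕ) : (k + 1) * cat k = (2 * k).choose k := by
  have h : k + 1 ∣ (2 * k).choose k := Nat.succ_dvd_centralBinom k
  rw [cat, Nat.mul_div_cancel' h]

/-- `(2k+1) C(3k,k-1) = k C(3k,k)` -/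
theorem dvd2 (k : ℕ) : 2 * k + 1 ∣ (3 * k).choose k := by
  rcases k with _ | k
  · simp
  · have h1 := Nat.choose_succ_right_eq (3 * (k + 1)) k
    rw [show 3 * (k + 1) - k = 2 * (k + 1) + 1 by omega] at h1
    have hc : (2 * (k + 1) + 1).Coprime (k + 1) := by
      rw [Nat.coprime_iff_gcd_eq_one, show 2 * (k + 1) + 1 = 1 + (k + 1) * 2 by ring, Nat.gcd_add_mul_left_left]
      exact Nat.gcd_one_left _
    exact hc.dvd_of_dvd_mul_right (Dvd.intro_left _ h1.symm)

theorem cat2_mul (k : ℕ) : (2 * k + 1) * cat2 k = (3 * k).choose k := by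
  rw [cat2, Nat.mul_div_cancel' (dvd2 k)]

/-- `(k+1) C(3k,k+1) = 2k C(3k,k)` -/
theorem dvdbar (k : ℕ) : k + 1 ∣ 2 * (3 * k).choose k := by
  have h1 := Nat.choose_succ_right_eq (3 * k) k
  rw [show 3 * k - k = 2 * k by omega] at h1
  have hc : (k + 1).Coprime k := (Nat.coprime_self_add_left).2 (Nat.coprime_one_left k)
  have h2 : (3 * k).choose k * (2 * k) = k * (2 * (3 * k).choose k) := by ring
  rw [h2] at h1
  exact hc.dvd_of_dvd_mul_left (Dvd.intro_left _ h1)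

theorem catbar_mul (k : ℕ) : (k + 1) * catbar k = 2 * (3 * k).choose k := by
  rw [catbar, Nat.mul_div_cancel' (dvdbar k)]

/-- `B_k = C(2k,k) C(3k,k)` -/
def B (k : ℕ) : ℕ := (2 * k).choose k * (3 * k).choose k

theorem B_fact (k : ℕ) : B k * k.factorial ^ 3 = (3 * k).factorial := by
  have h1 := Nat.choose_mul_factorial_mul_factorial (show k ≤ 2 * k by omega)
  have h2 := Nat.choose_mul_factorial_mul_factorial (show k ≤ 3 * k by omega)
  rw [show 2 * k - k = k by omega] at h1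
  rw [show 3 * k - k = 2 * k by omega] at h2
  rw [B, ← h2, ← h1]
  ring

theorem B_succ (k : ℕ) : (k + 1) ^ 2 * B (k + 1) = 3 * (3 * k + 1) * (3 * k + 2) * B k := by
  have h1 := B_fact k
  have h2 := B_fact (k + 1)
  rw [show 3 * (k + 1) = 3 * k + 1 + 1 + 1 by ring, Nat.factorial_succ (3 * k + 1 + 1), Nat.factorial_succ (3 * k + 1),
    Nat.factorial_succ (3 * k), Nat.factorial_succ, ← h1] at h2
  have h3 : 0 < (k + 1) * k.factorial ^ 3 := by positivity
  apply Nat.eq_of_mul_eq_mul_left h3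
  linear_combination h2

section padic

variable {p : ℕ} [hp : Fact p.Prime]

variable (p) in
/-- `t_k = B_k/27^k` -/
noncomputable def t (k : ℕ) : ℤ_[p] := (B k : ℤ_[p]) * v p 27 ^ k

theorem v27 (h3 : p ≠ 3) : 27 * v p 27 = 1 := by
  have := mul_v (p := p) (j := 27) (by
    intro h
    have h4 : p ∣ 3 := hp.out.dvd_of_dvd_pow (n := 3) (by norm_num; exact h)
    exact h3 ((Nat.prime_dvd_prime_iff_eq hp.out Nat.prime_three).1 h4))
  exact_mod_cast this

theorem t_succ (h3 : p ≠ 3) (k : ℕ) :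
    9 * ((k : ℤ_[p]) + 1) ^ 2 * t p (k + 1) = (3 * k + 1) * (3 * k + 2) * t p k := by
  have h1 := v27 (p := p) h3
  have h2 : ((k : ℤ_[p]) + 1) ^ 2 * B (k + 1) = 3 * (3 * k + 1) * (3 * k + 2) * B k := by
    exact_mod_cast congrArg (fun n : ℕ => (n : ℤ_[p])) (B_succ k)
  unfold t
  rw [pow_succ]
  linear_combination 9 * (v p 27 ^ k * v p 27) * h2 + (3 * k + 1) * (3 * k + 2) * (B k) * v p 27 ^ k * h1

theorem t_zero : t p 0 = 1 := by
  simp [t, B]

theorem t_eq_c (h3 : p ≠ 3) {k : ℕ} (hk : k < p) : t p k = c p (-v p 3) k := by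
  induction k with
  | zero => rw [t_zero]; simp [c]
  | succ k ih =>
    have ih' := ih (by omega)
    have h1 := t_succ (p := p) h3 k
    have h2 := mul_v_of_mem (p := p) (j := k + 1) (by rw [mem_Ico]; omega)
    have h4 := v_three (p := p) h3
    push_cast at h2
    rw [c_succ, ← ih']
    have e1 : v p 3 * (3 * k + 1) = k + v p 3 := by linear_combination (k : ℤ_[p]) * h4
    have e2 : v p 3 * (3 * k + 2) = k + 1 - v p 3 := by linear_combination ((k : ℤ_[p]) + 1) * h4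
    calc t p (k + 1) = (3 * v p 3) ^ 2 * (((k : ℤ_[p]) + 1) * v p (k + 1)) ^ 2 * t p (k + 1) := by
          rw [h4, h2]; ring
      _ = v p 3 ^ 2 * v p (k + 1) ^ 2 * (9 * ((k : ℤ_[p]) + 1) ^ 2 * t p (k + 1)) := by ring
      _ = t p k * (v p 3 * (3 * k + 1)) * (v p 3 * (3 * k + 2)) * v p (k + 1) ^ 2 := by rw [h1]; ring
      _ = _ := by rw [e1, e2]; ring

/-- `r_k = C_k C(3k,k)/27^k` -/
noncomputable def r (p : ℕ) [Fact p.Prime] (k : ℕ) : ℤ_[p] :=
  ((cat k : ℕ) : ℤ_[p]) * (((3 * k).choose k : ℕ) : ℤ_[p]) * v p 27 ^ k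

noncomputable def s (p : ℕ) [Fact p.Prime] (k : ℕ) : ℤ_[p] :=
  ((cat k * cat2 k : ℕ) : ℤ_[p]) * v p 27 ^ k

noncomputable def x (p : ℕ) [Fact p.Prime] (k : ℕ) : ℤ_[p] :=
  ((cat k * catbar k : ℕ) : ℤ_[p]) * v p 27 ^ k

theorem r_mul (k : ℕ) : ((k : ℤ_[p]) + 1) * r p k = t p k := by
  have h1 : ((k : ℤ_[p]) + 1) * cat k = ((2 * k).choose k : ℕ) := by
    exact_mod_cast congrArg (fun n : ℕ => (n : ℤ_[p])) (cat_mul k)
  unfold r t B
  push_cast
  linear_combination (((3 * k).choose k : ℕ) : ℤ_[p]) * v p 27 ^ k * h1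

theorem s_mul (k : ℕ) : (2 * (k : ℤ_[p]) + 1) * s p k = r p k := by
  have h1 : (2 * (k : ℤ_[p]) + 1) * cat2 k = ((3 * k).choose k : ℕ) := by
    exact_mod_cast congrArg (fun n : ℕ => (n : ℤ_[p])) (cat2_mul k)
  unfold r s
  push_cast
  linear_combination (cat k : ℤ_[p]) * v p 27 ^ k * h1

theorem x_mul (k : ℕ) : ((k : ℤ_[p]) + 1) * x p k = 2 * r p k := by
  have h1 : ((k : ℤ_[p]) + 1) * catbar k = 2 * ((3 * k).choose k : ℕ) := by
    exact_mod_cast congrArg (fun n : ℕ => (n : ℤ_[p])) (catbar_mul k)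
  unfold r x
  push_cast
  linear_combination (cat k : ℤ_[p]) * v p 27 ^ k * h1

theorem sum_r (h3 : p ≠ 3) (n : ℕ) : 2 * ∑ k ∈ range n, r p k = 9 * n * t p n := by
  induction n with
  | zero => simp
  | succ n ih =>
    rw [sum_range_succ, mul_add, ih]
    have h1 := t_succ (p := p) h3 n
    have h2 := r_mul (p := p) n
    have h4 : ((n : ℤ_[p]) + 1) ≠ 0 := by exact_mod_cast Nat.succ_ne_zero n
    apply mul_left_cancel₀ h4
    push_cast
    linear_combination 2 * h2 - h1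

theorem sum_x (h3 : p ≠ 3) (n : ℕ) : 2 * ∑ k ∈ range n, x p k = 9 * (9 * n + 2) * t p n - 18 := by
  induction n with
  | zero => rw [t_zero]; simp; norm_num
  | succ n ih =>
    rw [sum_range_succ, mul_add, ih]
    have h1 := t_succ (p := p) h3 n
    have h2 := r_mul (p := p) n
    have h5 := x_mul (p := p) n
    have h4 : ((n : ℤ_[p]) + 1) ^ 2 ≠ 0 := pow_ne_zero _ (by exact_mod_cast Nat.succ_ne_zero n)
    apply mul_left_cancel₀ h4
    push_cast
    linear_combination 4 * h2 + 2 * ((n : ℤ_[p]) + 1) * h5 - (9 * n + 11) * h1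

theorem t_p (h3 : p ≠ 3) : (p : ℤ_[p]) ∣ 9 * t p p - 2 := by
  rw [dvd_iff_toZMod]
  have h1 := v27 (p := p) h3
  have h2 := congrArg PadicInt.toZMod h1
  rw [map_mul, map_one] at h2
  have h27 : PadicInt.toZMod (27 : ℤ_[p]) = 27 := map_ofNat _ 27
  rw [h27] at h2
  unfold t B
  rw [map_sub, map_mul, map_mul, map_pow, map_natCast, ZMod.pow_card, map_ofNat, map_ofNat]
  have h5 : (((2 * p).choose p : ℕ) : ZMod p) = 2 := by
    have h6 := Choose.choose_modEq_choose_mod_mul_choose_div_nat (n := 2 * p) (k := p) (p := p)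
    rw [Nat.mul_mod_left, Nat.mod_self, Nat.mul_div_cancel _ hp.out.pos, Nat.div_self hp.out.pos] at h6
    have h7 := (ZMod.natCast_eq_natCast_iff _ _ _).2 h6
    rw [h7]
    norm_num
  have h6 : (((3 * p).choose p : ℕ) : ZMod p) = 3 := by
    have h6 := Choose.choose_modEq_choose_mod_mul_choose_div_nat (n := 3 * p) (k := p) (p := p)
    rw [Nat.mul_mod_left, Nat.mod_self, Nat.mul_div_cancel _ hp.out.pos, Nat.div_self hp.out.pos] at h6
    have h7 := (ZMod.natCast_eq_natCast_iff _ _ _).2 h6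
    rw [h7]
    norm_num
  push_cast
  rw [h5, h6]
  linear_combination 2 * h2

/-- the first congruence in `ℤ_p` -/
theorem first (h2 : p ≠ 2) (h3 : p ≠ 3) :
    (p : ℤ_[p]) ^ 2 ∣ ∑ k ∈ range p, s p k - ((2 * (if p % 3 = 1 then 1 else -1) - p : ℤ) : ℤ_[p]) := by
  have hp0 : (p : ℤ_[p]) ≠ 0 := by exact_mod_cast hp.out.ne_zero
  have e1 : p * ∑ k ∈ range p, s p k = 2 * P p (-v p 3) - p * ∑ k ∈ range p, r p k := by
    unfold P
    rw [mul_sum, mul_sum, mul_sum, ← sum_sub_distrib]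
    refine sum_congr rfl fun k hk => ?_
    rw [mem_range] at hk
    rw [← t_eq_c h3 hk]
    have h4 := u_mul (p := p) hk
    have h5 := r_mul (p := p) k
    have h6 := s_mul (p := p) k
    have h7 : (2 * (k : ℤ_[p]) + 1) ≠ 0 := by exact_mod_cast Nat.succ_ne_zero (2 * k)
    apply mul_left_cancel₀ h7
    linear_combination p * h6 - 2 * t p k * h4 + 2 * p * h5
  obtain ⟨q, hq⟩ := P_third (p := p) h2 h3
  obtain ⟨w, hw⟩ := t_p (p := p) h3
  have h8 := sum_r (p := p) h3 p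
  have hu2 : IsUnit (2 : ℤ_[p]) := by
    have := isUnit_nat (p := p) (j := 2) (by
      intro h
      exact h2 ((Nat.prime_dvd_prime_iff_eq hp.out Nat.prime_two).1 h))
    exact_mod_cast this
  refine (hu2.dvd_mul_left).1 ⟨4 * q - w, ?_⟩
  apply mul_left_cancel₀ hp0
  push_cast
  split_ifs at hq ⊢ with h
  · linear_combination 2 * e1 + 4 * hq - p * h8 - p ^ 2 * hw
  · linear_combination 2 * e1 + 4 * hq - p * h8 - p ^ 2 * hw

/-- the second congruence in `ℤ_p` -/
theorem second (h2 : p ≠ 2) (h3 : p ≠ 3) :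
    (p : ℤ_[p]) ∣ ∑ k ∈ range p, x p k + 7 := by
  obtain ⟨w, hw⟩ := t_p (p := p) h3
  have h8 := sum_x (p := p) h3 p
  have hu2 : IsUnit (2 : ℤ_[p]) := by
    have := isUnit_nat (p := p) (j := 2) (by
      intro h
      exact h2 ((Nat.prime_dvd_prime_iff_eq hp.out Nat.prime_two).1 h))
    exact_mod_cast this
  refine (hu2.dvd_mul_left).1 ⟨81 * t p p + 2 * w, ?_⟩
  linear_combination h8 + 2 * hw

end padic

/-- transfer from `ℤ_p` to the numerator of the rational number -/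
theorem transfer {p m : ℕ} (hp : p.Prime) (h3 : p ≠ 3) (f : ℕ → ℕ) (c : ℤ)
    (h : haveI : Fact p.Prime := ⟨hp⟩
      (p : ℤ_[p]) ^ m ∣ ∑ k ∈ range p, (f k : ℤ_[p]) * v p 27 ^ k - (c : ℤ_[p])) :
    (p : ℤ) ^ m ∣ (∑ k ∈ range p, (f k : ℚ) / 27 ^ k - c).num := by
  have hf : Fact p.Prime := ⟨hp⟩
  set q : ℚ := ∑ k ∈ range p, (f k : ℚ) / 27 ^ k - c with hq
  set N : ℤ := ∑ k ∈ range p, (f k : ℤ) * 27 ^ (p - k) - 27 ^ p * c with hN
  have h1 : q * 27 ^ p = N := by
    rw [hq, hN]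
    push_cast
    rw [sub_mul, sum_mul]
    congr 1
    · refine sum_congr rfl fun k hk => ?_
      rw [mem_range] at hk
      have h4 : (27 : ℚ) ^ p = 27 ^ (p - k) * 27 ^ k := by
        rw [← pow_add]
        congr 1
        omega
      rw [h4]
      field_simp
    · ring
  have h2 : (p : ℤ) ^ m ∣ N := by
    rw [← PadicInt.pow_p_dvd_int_iff]
    have h5 : ((N : ℤ) : ℤ_[p]) = 27 ^ p * (∑ k ∈ range p, (f k : ℤ_[p]) * v p 27 ^ k - (c : ℤ_[p])) := by
      rw [hN]
      push_cast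
      rw [mul_sub, mul_sum]
      congr 1
      refine sum_congr rfl fun k hk => ?_
      rw [mem_range] at hk
      have h4 : (27 : ℤ_[p]) ^ p = 27 ^ (p - k) * 27 ^ k := by
        rw [← pow_add]
        congr 1
        omega
      have h6 : (27 : ℤ_[p]) ^ k * v p 27 ^ k = 1 := by
        rw [← mul_pow, v27 h3, one_pow]
      rw [h4]
      linear_combination (-(f k : ℤ_[p]) * 27 ^ (p - k)) * h6
    rw [h5]
    exact h.mul_left _
  have h7 : q.num * 27 ^ p = N * q.den := by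
    have h8 : (q.num : ℚ) = q * q.den := (Rat.mul_den_eq_num q).symm
    have h9 : ((q.num * 27 ^ p : ℤ) : ℚ) = ((N * q.den : ℤ) : ℚ) := by
      push_cast
      rw [← h1, h8]
      ring
    exact_mod_cast h9
  have h4 : (p : ℤ) ^ m ∣ q.num * 27 ^ p := by
    rw [h7]
    exact h2.mul_right _
  have hc : IsCoprime ((p : ℤ) ^ m) ((27 : ℤ) ^ p) := by
    apply IsCoprime.pow
    have c3 : IsCoprime (p : ℤ) 3 := by
      have := (Nat.coprime_primes hp Nat.prime_three).2 h3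
      exact_mod_cast Nat.isCoprime_iff_coprime.2 this
    rw [show (27 : ℤ) = 3 ^ 3 by norm_num]
    exact c3.pow_right
  exact hc.dvd_of_dvd_mul_right h4

/-- **MP_77f5f4**, Q1: for every prime `p > 3`, with `χ = 1` if `p ≡ 1 (mod 3)` and `χ = -1`
otherwise, `∑ C_k C_k^{(2)}/27^k ≡ 2χ - p (mod p^2)` and `∑ C_k \bar C_k^{(2)}/27^k ≡ -7 (mod p)`
(the numerator of the difference is divisible by the power of `p`). -/
theorem result (p : ℕ) (hp : p.Prime) (h3 : 3 < p) :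
    (p : ℤ) ^ 2 ∣ (S p - (2 * (if p % 3 = 1 then 1 else -1) - p)).num ∧ (p : ℤ) ∣ (Sbar p - (-7)).num := by
  have hf : Fact p.Prime := ⟨hp⟩
  constructor
  · have h := transfer (m := 2) hp (by omega) (fun k => cat k * cat2 k)
      (2 * (if p % 3 = 1 then 1 else -1) - p) (first (p := p) (by omega) (by omega))
    have e : ((2 * (if p % 3 = 1 then 1 else -1) - p : ℤ) : ℚ) = 2 * (if p % 3 = 1 then 1 else -1) - p := by
      push_cast
      ring
    rw [e] at h
    exact h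
  · have h4 : (p : ℤ_[p]) ^ 1 ∣ ∑ k ∈ range p, ((cat k * catbar k : ℕ) : ℤ_[p]) * v p 27 ^ k - ((-7 : ℤ) : ℤ_[p]) := by
      rw [pow_one]
      have h5 := second (p := p) (by omega) (by omega)
      obtain ⟨w, hw⟩ := h5
      refine ⟨w, ?_⟩
      rw [← hw]
      unfold x
      push_cast
      ring
    have h := transfer (m := 1) hp (by omega) (fun k => cat k * catbar k) (-7) h4
    rw [pow_one] at h
    have e : (((-7 : ℤ)) : ℚ) = -7 := by norm_num
    rw [e] at h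
    exact h

end Pool.Agent.Results.MP_77f5f4_nt.SecondOrderCatalan
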